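import Pool.Agent.Lib.MP_6bc78b_nt.GP.Iface

/-! PLT: Plancherel for `S_E` (from PLC and ETR). -/

set_option autoImplicit false

open Complex Filter Topology MeasureTheory Set
open scoped ENNReal

namespace Pool.Agent.Lib.MP_6bc78b_nt.GP.H32

open Pool.Agent.Lib.MP_6bc78b_nt.GP

/-- A Gaussian times `e^{3|u|}` is integrable. -/
lemma integrable_gauss_abs (a : ℝ) (ha : 0 < a) :
    Integrable (fun u : ℝ => Real.exp (-(a * u ^ 2) + 3 * |u|)) := by
  have key : ∀ u : ℝ, -(a * u ^ 2) + 3 * |u| ≤ 9 / (2 * a) - (a / 2) * u ^ 2 := by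
    intro u
    have h1 : 0 ≤ (a / 2) * (|u| - 3 / a) ^ 2 := by positivity
    have h2 : (a / 2) * (|u| - 3 / a) ^ 2 = (a / 2) * |u| ^ 2 - 3 * |u| + 9 / (2 * a) := by
      field_simp
      ring
    have h3 : |u| ^ 2 = u ^ 2 := sq_abs u
    rw [h2, h3] at h1
    linarith
  have hg : Integrable (fun u : ℝ => Real.exp (9 / (2 * a)) * Real.exp (-(a / 2) * u ^ 2)) :=
    (integrable_exp_neg_mul_sq (by positivity)).const_mul _
  refine hg.mono' (by fun_prop) (Eventually.of_forall fun u => ?_)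
  rw [Real.norm_eq_abs, abs_of_pos (Real.exp_pos _), ← Real.exp_add]
  apply Real.exp_le_exp.2
  have := key u
  linarith

theorem plt (h1 : PLCStatement) (h2 : ETRStatement) : PLTStatement := by
  intro A B δ H hδ hδ2 hH
  obtain ⟨hc, C, hC, hb⟩ := h2 A B
  have hcont : Continuous (fun u : ℝ => EE A B (zp u δ)) := hc δ hδ (by linarith)
  have hpi : 0 < Real.sqrt (2 * Real.pi) := Real.sqrt_pos.2 (by positivity)
  -- the norm of `hu`
  have hn : ∀ u : ℝ, ‖hu A B δ H u‖ = H / Real.sqrt (2 * Real.pi) *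
      Real.exp (-(H ^ 2 * u ^ 2) / 2 + u / 2) * ‖EE A B (zp u δ)‖ := by
    intro u
    unfold hu
    rw [norm_mul, Complex.norm_real, Real.norm_eq_abs, abs_of_nonneg (by positivity)]
  have hint : Integrable (fun u : ℝ => hu A B δ H u) := by
    have hg := (integrable_gauss_abs (H ^ 2 / 2) (by positivity)).const_mul
      (H / Real.sqrt (2 * Real.pi) * (C / δ ^ 2))
    refine hg.mono' ?_ (Eventually.of_forall fun u => ?_)
    · have : Continuous (fun u : ℝ => hu A B δ H u) := by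
        unfold hu
        exact (Complex.continuous_ofReal.comp (by fun_prop)).mul hcont
      exact this.aestronglyMeasurable
    · rw [hn u]
      have h3 := hb u δ hδ hδ2
      have h4 : Real.exp (-(H ^ 2 * u ^ 2) / 2 + u / 2) * ‖EE A B (zp u δ)‖ ≤
          C / δ ^ 2 * Real.exp (-(H ^ 2 / 2 * u ^ 2) + 3 * |u|) := by
        calc Real.exp (-(H ^ 2 * u ^ 2) / 2 + u / 2) * ‖EE A B (zp u δ)‖
            ≤ Real.exp (-(H ^ 2 * u ^ 2) / 2 + u / 2) * (C * Real.exp (2 * |u|) / δ ^ 2) := by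
              gcongr
          _ = C / δ ^ 2 * Real.exp (-(H ^ 2 * u ^ 2) / 2 + u / 2 + 2 * |u|) := by
              rw [Real.exp_add (-(H ^ 2 * u ^ 2) / 2 + u / 2) (2 * |u|)]
              ring
          _ ≤ C / δ ^ 2 * Real.exp (-(H ^ 2 / 2 * u ^ 2) + 3 * |u|) := by
              refine mul_le_mul_of_nonneg_left (Real.exp_le_exp.2 ?_) (by positivity)
              have h6 := le_abs_self u
              have h7 := abs_nonneg u
              have h8 : H ^ 2 / 2 * u ^ 2 = H ^ 2 * u ^ 2 / 2 := by ring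
              rw [h8]
              linarith
      calc H / Real.sqrt (2 * Real.pi) * Real.exp (-(H ^ 2 * u ^ 2) / 2 + u / 2) *
            ‖EE A B (zp u δ)‖
          = H / Real.sqrt (2 * Real.pi) * (Real.exp (-(H ^ 2 * u ^ 2) / 2 + u / 2) *
            ‖EE A B (zp u δ)‖) := by ring
        _ ≤ H / Real.sqrt (2 * Real.pi) *
            (C / δ ^ 2 * Real.exp (-(H ^ 2 / 2 * u ^ 2) + 3 * |u|)) := by gcongr
        _ = _ := by ring
  have hpl := h1 (fun u : ℝ => hu A B δ H u) hint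
  have hSE : ∀ t : ℝ, SE A B δ H t = ∫ w : ℝ, hu A B δ H w * Complex.exp (t * w * I) := by
    intro t
    unfold SE
    congr 1
    ext u
    rw [mul_comm (u : ℂ) (t : ℂ)]
  simp only [hSE]
  refine hpl.trans ?_
  have hsq : ∀ u : ℝ, ‖hu A B δ H u‖ ^ 2 = H ^ 2 / (2 * Real.pi) *
      (‖EE A B (zp u δ)‖ ^ 2 * Real.exp (-(H ^ 2 * u ^ 2) + u)) := by
    intro u
    rw [hn u, mul_pow, mul_pow, div_pow, Real.sq_sqrt (by positivity), ← Real.exp_nat_mul]
    have : ((2 : ℕ) : ℝ) * (-(H ^ 2 * u ^ 2) / 2 + u / 2) = -(H ^ 2 * u ^ 2) + u := by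
      push_cast
      ring
    rw [this]
    ring
  have h5 : ∀ u : ℝ, ENNReal.ofReal (‖hu A B δ H u‖ ^ 2) =
      ENNReal.ofReal (H ^ 2 / (2 * Real.pi)) *
        ENNReal.ofReal (‖EE A B (zp u δ)‖ ^ 2 * Real.exp (-(H ^ 2 * u ^ 2) + u)) := by
    intro u
    rw [hsq u, ENNReal.ofReal_mul (by positivity)]
  simp only [h5]
  rw [lintegral_const_mul' _ _ ENNReal.ofReal_ne_top, ← mul_assoc,
    ← ENNReal.ofReal_mul (by positivity)]
  have h6 : 2 * Real.pi * (H ^ 2 / (2 * Real.pi)) = H ^ 2 := by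
    field_simp
  rw [h6]

end Pool.Agent.Lib.MP_6bc78b_nt.GP.H32
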